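import Mathlib

set_option autoImplicit false

/-!
The Bhargava factorials of the set of the primes in prime triplets `(p, p + 2, p + 6)`, compared with
those of the set of all primes: the proposed identity fails for `n = 28`, and for every `n = p - 1`,
`p ≥ 5` a prime which is not in such a triplet.
-/

namespace Pool.Agent.Results.MP_1b3ee4_nt.PrimeTriplets

open Finset

/-- The set of all primes, as a set of integers. -/
def AllPrimes : Set ℤ := {q | ∃ p : ℕ, p.Prime ∧ q = p}

/-- The set of the primes `q ∈ {p, p + 2, p + 6}` for some `p` such that `p`, `p + 2`, `p + 6` are all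
prime, as a set of integers. -/
def TripletPrimes : Set ℤ :=
  {q | ∃ p : ℕ, p.Prime ∧ (p + 2).Prime ∧ (p + 6).Prime ∧ (q = p ∨ q = p + 2 ∨ q = p + 6)}

/-- The exponent of `p` in `∏_{i<k} (x - a i)` (it is `⊤ = ∞` if the product is `0`). -/
noncomputable def expo (p : ℕ) (a : ℕ → ℤ) (k : ℕ) (x : ℤ) : ℕ∞ :=
  emultiplicity (p : ℤ) (∏ i ∈ range k, (x - a i))

/-- `a 0, ..., a n` are the first terms of a `p`-ordering of `X`: each `a k` is an element `x` of `X`
for which the largest power of `p` dividing `∏_{i<k} (x - a i)` is least possible. -/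
def IsPOrdering (X : Set ℤ) (p n : ℕ) (a : ℕ → ℤ) : Prop :=
  ∀ k ≤ n, a k ∈ X ∧ ∀ x ∈ X, expo p a k (a k) ≤ expo p a k x

/-- `N` is the Bhargava factorial `n!_X`: it is `∏_p p ^ ν p`, where `p ^ ν p` is the largest power of `p`
which divides `∏_{i<n} (a n - a i)` for some `p`-ordering `a` of `X`, and `ν p = 0` for all primes
`p > B`. (In particular `n!_X` is defined.) -/
def IsFactorial (X : Set ℤ) (n N : ℕ) : Prop :=
  ∃ (ν : ℕ → ℕ) (B : ℕ),
    (∀ p : ℕ, p.Prime → ∃ a : ℕ → ℤ, IsPOrdering X p n a ∧ expo p a n (a n) = ν p) ∧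
    (∀ p : ℕ, p.Prime → B < p → ν p = 0) ∧
    N = ∏ p ∈ (range (B + 1)).filter Nat.Prime, p ^ ν p

/-- The value of the ratio `n!_{P_3} / n!_P` proposed in Q1: `3! w_2(n) w_3(n)` for even `n` and `2` for
odd `n`, `w_p(n)` the largest power of `p` dividing `n`. -/
def proposedRatio (n : ℕ) : ℕ :=
  if Even n then Nat.factorial 3 * 2 ^ padicValNat 2 n * 3 ^ padicValNat 3 n else 2

/-! ### proofs -/

/-- the exponent is zero iff `x` is not congruent to an earlier term -/
lemma expo_eq_zero {p : ℕ} (hp : p.Prime) {a : ℕ → ℤ} {k : ℕ} {x : ℤ} :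
    expo p a k x = 0 ↔ ∀ i < k, ¬ (p : ℤ) ∣ x - a i := by
  unfold expo
  rw [emultiplicity_eq_zero, Prime.dvd_finsetProd_iff (Nat.prime_iff_prime_int.1 hp)]
  simp only [mem_range, not_exists, not_and]

lemma expo_mono {p : ℕ} {a : ℕ → ℤ} {j k : ℕ} (h : j ≤ k) (x : ℤ) :
    expo p a j x ≤ expo p a k x := by
  unfold expo
  apply emultiplicity_le_emultiplicity_of_dvd_right
  exact prod_dvd_prod_of_subset _ _ _ (range_mono h)

/-- if `X` contains more than `k` elements pairwise incongruent modulo `p`, one of them is not congruent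
to any of `k` given integers -/
lemma exists_avoid {p : ℕ} {X : Set ℤ} {k m : ℕ} (hkm : k < m) (x : Fin m → ℤ)
    (hx : ∀ i, x i ∈ X) (hinc : ∀ i j, i ≠ j → ¬ (p : ℤ) ∣ x i - x j) (a : ℕ → ℤ) :
    ∃ y ∈ X, ∀ i < k, ¬ (p : ℤ) ∣ y - a i := by
  by_contra hcon
  push Not at hcon
  choose f hf hfd using fun i : Fin m => hcon (x i) (hx i)
  have hinj : Function.Injective (fun i : Fin m => (⟨f i, hf i⟩ : Fin k)) := by
    intro i j hij
    by_contra hne
    have h1 : f i = f j := by simpa using hij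
    apply hinc i j hne
    have h2 := dvd_sub (hfd i) (hfd j)
    rw [h1] at h2
    simpa using h2
  have := Fintype.card_le_of_injective _ hinj
  simp at this
  omega

lemma expo_zero_of {p : ℕ} (hp : p.Prime) {X : Set ℤ} {n m : ℕ} (hkm : n < m) (x : Fin m → ℤ)
    (hx : ∀ i, x i ∈ X) (hinc : ∀ i j, i ≠ j → ¬ (p : ℤ) ∣ x i - x j) {a : ℕ → ℤ}
    (ha : IsPOrdering X p n a) : expo p a n (a n) = 0 := by
  obtain ⟨y, hy, hyi⟩ := exists_avoid hkm x hx hinc a
  have h1 := (ha n le_rfl).2 y hy
  rw [(expo_eq_zero hp).2 hyi] at h1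
  exact le_antisymm h1 (zero_le)

/-- existence of `p`-orderings -/
lemma exists_ordering (X : Set ℤ) (hX : X.Nonempty) (p : ℕ) :
    ∃ a : ℕ → ℤ, ∀ k, a k ∈ X ∧ ∀ x ∈ X, expo p a k (a k) ≤ expo p a k x := by
  classical
  -- the function of the list of the earlier terms
  have key : ∀ l : List ℤ, ∃ y ∈ X, ∀ x ∈ X,
      emultiplicity (p : ℤ) ((l.map (fun b => y - b)).prod) ≤
        emultiplicity (p : ℤ) ((l.map (fun b => x - b)).prod) := by
    intro l
    have hwf := (wellFounded_lt (α := ℕ∞)).has_min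
      ((fun x : ℤ => emultiplicity (p : ℤ) ((l.map (fun b => x - b)).prod)) '' X)
      (hX.image _)
    obtain ⟨v, ⟨y, hy, rfl⟩, hmin⟩ := hwf
    refine ⟨y, hy, fun x hx => ?_⟩
    exact not_lt.1 (hmin _ ⟨x, hx, rfl⟩)
  choose g hg1 hg2 using key
  -- lists of the first terms
  let L : ℕ → List ℤ := fun n => Nat.rec [] (fun _ l => l ++ [g l]) n
  have hL : ∀ n, L (n + 1) = L n ++ [g (L n)] := fun n => rfl
  let a : ℕ → ℤ := fun n => g (L n)
  have hLa : ∀ n, L n = (List.range n).map a := by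
    intro n
    induction n with
    | zero => rfl
    | succ n ih =>
      rw [hL, List.range_succ, List.map_append, ← ih]
      rfl
  have hprod : ∀ n (x : ℤ), ((L n).map (fun b => x - b)).prod = ∏ i ∈ range n, (x - a i) := by
    intro n x
    rw [hLa, List.map_map, Finset.prod_range]
    rw [← List.prod_ofFn]
    congr 1
    apply List.ext_getElem
    · simp
    · intro i h1 h2
      simp
  refine ⟨a, fun k => ⟨hg1 _, fun x hx => ?_⟩⟩
  unfold expo
  rw [← hprod, ← hprod]
  exact hg2 (L k) x hx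

/-- the factorial is defined if `X` has more than `n` elements -/
lemma exists_factorial {X : Set ℤ} {n : ℕ} (x : Fin (n + 1) → ℤ) (hx : ∀ i, x i ∈ X)
    (hinj : Function.Injective x) : ∃ N, IsFactorial X n N := by
  classical
  have hXne : X.Nonempty := ⟨x 0, hx 0⟩
  -- a bound
  let D : ℤ := ∏ i : Fin (n + 1), ∏ j ∈ univ.filter (fun j : Fin (n + 1) => j ≠ i), (x i - x j)
  have hD : D ≠ 0 := by
    refine prod_ne_zero_iff.2 fun i _ => prod_ne_zero_iff.2 fun j hj => ?_
    rw [mem_filter] at hj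
    exact sub_ne_zero.2 fun h => hj.2 (hinj h).symm
  have hinc : ∀ p : ℕ, p.Prime → D.natAbs < p → ∀ i j, i ≠ j → ¬ (p : ℤ) ∣ x i - x j := by
    intro p hp hlt i j hij hdvd
    have h1 : (x i - x j) ∣ D := by
      refine dvd_trans ?_ (dvd_prod_of_mem _ (mem_univ i))
      exact dvd_prod_of_mem (fun j => x i - x j) (mem_filter.2 ⟨mem_univ j, fun h => hij h.symm⟩)
    have h2 : (p : ℤ) ∣ D := hdvd.trans h1
    have h3 : p ∣ D.natAbs := Int.natCast_dvd.1 h2
    have := Nat.le_of_dvd (Int.natAbs_pos.2 hD) h3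
    omega
  have hord : ∀ p : ℕ, ∃ (a : ℕ → ℤ), IsPOrdering X p n a := by
    intro p
    obtain ⟨a, ha⟩ := exists_ordering X hXne p
    exact ⟨a, fun k _ => ha k⟩
  choose a ha using hord
  have hfin : ∀ p : ℕ, p.Prime → expo p (a p) n (a p n) ≠ ⊤ := by
    intro p hp htop
    -- some element of X different from all the earlier terms
    have : ∃ i : Fin (n + 1), ∀ j < n, x i ≠ a p j := by
      by_contra hcon
      push Not at hcon
      choose f hf hfd using hcon
      have hinj' : Function.Injective (fun i : Fin (n + 1) => (⟨f i, hf i⟩ : Fin n)) := by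
        intro i j hij
        have h1 : f i = f j := by simpa using hij
        apply hinj
        rw [hfd i, hfd j, h1]
      have := Fintype.card_le_of_injective _ hinj'
      simp at this
    obtain ⟨i, hi⟩ := this
    have h1 := (ha p n le_rfl).2 (x i) (hx i)
    rw [htop, top_le_iff] at h1
    unfold expo at h1
    have h2 : FiniteMultiplicity (p : ℤ) (∏ j ∈ range n, (x i - a p j)) := by
      apply Int.finiteMultiplicity_iff.2
      refine ⟨?_, prod_ne_zero_iff.2 fun j hj => sub_ne_zero.2 (hi j (mem_range.1 hj))⟩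
      simpa using hp.one_lt.ne'
    exact (finiteMultiplicity_iff_emultiplicity_ne_top.1 h2) h1
  refine ⟨_, fun p => (expo p (a p) n (a p n)).toNat, D.natAbs, fun p hp => ⟨a p, ha p, ?_⟩,
    fun p hp hlt => ?_, rfl⟩
  · exact (ENat.natCast_toNat (hfin p hp)).symm
  · show (expo p (a p) n (a p n)).toNat = 0
    rw [expo_zero_of hp (Nat.lt_succ_self n) x hx (hinc p hp hlt) (ha p)]
    rfl

/-- the exponent of a prime in a factorial -/
lemma dvd_factorial_iff {X : Set ℤ} {n N : ℕ} (h : IsFactorial X n N) {p : ℕ} (hp : p.Prime) :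
    ∃ a : ℕ → ℤ, IsPOrdering X p n a ∧ (p ∣ N ↔ expo p a n (a n) ≠ 0) := by
  obtain ⟨ν, B, h1, h2, rfl⟩ := h
  obtain ⟨a, ha, hν⟩ := h1 p hp
  refine ⟨a, ha, ?_⟩
  rw [hν, Prime.dvd_finsetProd_iff hp.prime]
  constructor
  · rintro ⟨q, hq, hpq⟩ h0
    rw [mem_filter] at hq
    have h3 := hp.dvd_of_dvd_pow hpq
    have h4 := (Nat.prime_dvd_prime_iff_eq hp hq.2).1 h3
    subst h4
    have h5 : ν p = 0 := by exact_mod_cast h0
    rw [h5, pow_zero] at hpq
    exact hp.one_lt.ne' (Nat.dvd_one.1 hpq)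
  · intro h0
    have h5 : ν p ≠ 0 := by
      intro h; rw [h] at h0; exact h0 rfl
    have h6 : p ≤ B := by
      by_contra hlt
      exact h5 (h2 p hp (by omega))
    refine ⟨p, mem_filter.2 ⟨mem_range.2 (by omega), hp⟩, dvd_pow_self p h5⟩

/-- For the set of all primes the prime `p` does not divide the factorial of `p - 1`. -/
lemma not_dvd_all {p M : ℕ} (hp : p.Prime) (h : IsFactorial AllPrimes (p - 1) M) : ¬ p ∣ M := by
  obtain ⟨a, ha, hiff⟩ := dvd_factorial_iff h hp
  rw [hiff, not_not]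
  have : NeZero p := ⟨hp.ne_zero⟩
  -- a prime in each class
  have hcl : ∀ i : Fin p, ∃ q : ℕ, q.Prime ∧ (q : ℤ) ≡ (i : ℕ) [ZMOD p] := by
    intro i
    by_cases hi : (i : ℕ) = 0
    · exact ⟨p, hp, by rw [hi]; simp⟩
    · have hunit : IsUnit ((i : ℕ) : ZMod p) := by
        rw [ZMod.isUnit_iff_coprime]
        exact (Nat.Coprime.symm ((Nat.Prime.coprime_iff_not_dvd hp).2 fun h =>
          hi (Nat.eq_zero_of_dvd_of_lt h i.2)))
      obtain ⟨q, _, hq, hqm⟩ := Nat.forall_exists_prime_gt_and_eq_mod hunit 0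
      refine ⟨q, hq, ?_⟩
      have := (ZMod.intCast_eq_intCast_iff (q : ℤ) ((i : ℕ) : ℤ) p).1 (by push_cast; exact hqm)
      exact this
  choose q hq hqm using hcl
  refine expo_zero_of (X := AllPrimes) hp (m := p) (by have := hp.pos; omega) (fun i => (q i : ℤ))
    (fun i => ⟨q i, hq i, rfl⟩) ?_ ha
  intro i j hij hdvd
  apply hij
  have h1 : (q j : ℤ) ≡ q i [ZMOD p] := (Int.modEq_iff_dvd).2 hdvd
  have h2 : ((j : ℕ) : ℤ) ≡ ((i : ℕ) : ℤ) [ZMOD p] := ((hqm j).symm.trans h1).trans (hqm i)
  have h3 : ((j : ℕ) : ℤ) % p = ((i : ℕ) : ℤ) % p := h2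
  rw [Int.emod_eq_of_lt (by positivity) (by exact_mod_cast j.2),
    Int.emod_eq_of_lt (by positivity) (by exact_mod_cast i.2)] at h3
  apply Fin.ext
  exact_mod_cast h3.symm

/-- If no element of `X` is divisible by `p` then `p` divides the factorial of `p - 1`. -/
lemma dvd_of_units {X : Set ℤ} {p N : ℕ} (hp : p.Prime) (hX : ∀ x ∈ X, ¬ (p : ℤ) ∣ x)
    (h : IsFactorial X (p - 1) N) : p ∣ N := by
  classical
  obtain ⟨a, ha, hiff⟩ := dvd_factorial_iff h hp
  rw [hiff]
  have : Fact p.Prime := ⟨hp⟩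
  intro h0
  -- all exponents vanish
  have h1 : ∀ k ≤ p - 1, expo p a k (a k) = 0 := by
    intro k hk
    have h2 : expo p a k (a k) ≤ expo p a k (a (p - 1)) := (ha k hk).2 _ (ha (p - 1) le_rfl).1
    have h3 : expo p a k (a (p - 1)) ≤ expo p a (p - 1) (a (p - 1)) := expo_mono hk _
    exact le_antisymm ((h2.trans h3).trans h0.le) (zero_le)
  -- `p` pairwise incongruent units
  let f : Fin p → (ZMod p)ˣ := fun i => Units.mk0 ((a i : ℤ) : ZMod p) (by
    rw [Ne, ZMod.intCast_zmod_eq_zero_iff_dvd]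
    exact hX _ (ha i (by have := i.2; omega)).1)
  have hf : Function.Injective f := by
    have aux : ∀ i j : Fin p, (i : ℕ) < j → f i ≠ f j := by
      intro i j hij hfe
      have h4 : ((a i : ℤ) : ZMod p) = ((a j : ℤ) : ZMod p) := congrArg Units.val hfe
      have h5 := (ZMod.intCast_eq_intCast_iff_dvd_sub _ _ _).1 h4
      exact (expo_eq_zero hp).1 (h1 j (by have := j.2; omega)) i hij h5
    intro i j hij
    rcases lt_trichotomy (i : ℕ) j with h | h | h
    · exact absurd hij (aux i j h)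
    · exact Fin.ext h
    · exact absurd hij.symm (aux j i h)
  have h6 := Fintype.card_le_of_injective f hf
  rw [ZMod.card_units, Fintype.card_fin] at h6
  have := hp.pos
  omega

lemma triplet_prime {x : ℤ} (hx : x ∈ TripletPrimes) : ∃ q : ℕ, q.Prime ∧ x = q := by
  obtain ⟨p, h1, h2, h3, h4 | h4 | h4⟩ := hx
  · exact ⟨p, h1, h4⟩
  · exact ⟨p + 2, h2, by push_cast; exact h4⟩
  · exact ⟨p + 6, h3, by push_cast; exact h4⟩

/-- the proposed ratio has no prime factor larger than three -/
lemma not_dvd_ratio {p n : ℕ} (hp : p.Prime) (h5 : 5 ≤ p) : ¬ p ∣ proposedRatio n := by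
  unfold proposedRatio
  intro h
  split_ifs at h with he
  · rw [show Nat.factorial 3 = 6 from rfl] at h
    rcases (hp.dvd_mul).1 h with h | h
    · rcases (hp.dvd_mul).1 h with h | h
      · have := Nat.le_of_dvd (by norm_num) h
        have : p = 5 ∨ p = 6 := by omega
        rcases this with rfl | rfl
        · norm_num at h
        · norm_num at hp
      · have := Nat.le_of_dvd (by norm_num) (hp.dvd_of_dvd_pow h)
        omega
    · have := Nat.le_of_dvd (by norm_num) (hp.dvd_of_dvd_pow h)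
      omega
  · have := Nat.le_of_dvd (by norm_num) h
    omega

lemma main {p : ℕ} (hp : p.Prime) (h5 : 5 ≤ p) (hn : (p : ℤ) ∉ TripletPrimes) {N M : ℕ}
    (hN : IsFactorial TripletPrimes (p - 1) N) (hM : IsFactorial AllPrimes (p - 1) M) :
    p ∣ N ∧ ¬ p ∣ M ∧ N ≠ M * proposedRatio (p - 1) := by
  have h1 : p ∣ N := by
    refine dvd_of_units hp ?_ hN
    intro x hx hdvd
    obtain ⟨q, hq, rfl⟩ := triplet_prime hx
    have h2 : p ∣ q := by exact_mod_cast hdvd
    have h3 := (Nat.prime_dvd_prime_iff_eq hp hq).1 h2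
    subst h3
    exact hn hx
  have h2 := not_dvd_all hp hM
  refine ⟨h1, h2, fun h => ?_⟩
  rw [h] at h1
  rcases (hp.dvd_mul).1 h1 with h3 | h3
  · exact h2 h3
  · exact not_dvd_ratio hp h5 h3

/-- `29` is not in a triplet -/
lemma not_mem_29 : (29 : ℤ) ∉ TripletPrimes := by
  rintro ⟨p, h1, h2, h3, h | h | h⟩
  · have : p = 29 := by omega
    subst this; norm_num at h3
  · have : p = 27 := by omega
    subst this; norm_num at h1
  · have : p = 23 := by omega
    subst this; norm_num at h2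

/-- Thirty elements of the set of the primes in triplets. -/
def T30 : List ℕ := [5, 7, 11, 13, 17, 19, 23, 41, 43, 47, 101, 103, 107, 109, 113, 191, 193, 197, 227, 229,
  233, 311, 313, 317, 347, 349, 353, 461, 463, 467]

lemma T30_mem : ∀ q ∈ T30, (q : ℤ) ∈ TripletPrimes := by
  intro q hq
  have key : ∀ p : ℕ, p.Prime → (p + 2).Prime → (p + 6).Prime → (q = p ∨ q = p + 2 ∨ q = p + 6) →
      (q : ℤ) ∈ TripletPrimes := by
    intro p h1 h2 h3 h4
    refine ⟨p, h1, h2, h3, ?_⟩
    rcases h4 with h | h | h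
    · left; exact_mod_cast h
    · right; left; exact_mod_cast h
    · right; right; exact_mod_cast h
  have hmem : q ∈ [5, 7, 11] ∨ q ∈ [13, 17, 11] ∨ q ∈ [19, 23, 17] ∨ q ∈ [41, 43, 47] ∨
      q ∈ [101, 103, 107] ∨ q ∈ [109, 113, 107] ∨ q ∈ [191, 193, 197] ∨ q ∈ [227, 229, 233] ∨
      q ∈ [311, 313, 317] ∨ q ∈ [347, 349, 353] ∨ q ∈ [461, 463, 467] := by
    clear key
    revert q
    unfold T30
    decide
  simp only [List.mem_cons, List.not_mem_nil, or_false] at hmem
  rcases hmem with h | h | h | h | h | h | h | h | h | h | h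
  · exact key 5 (by norm_num) (by norm_num) (by norm_num) (by omega)
  · exact key 11 (by norm_num) (by norm_num) (by norm_num) (by omega)
  · exact key 17 (by norm_num) (by norm_num) (by norm_num) (by omega)
  · exact key 41 (by norm_num) (by norm_num) (by norm_num) (by omega)
  · exact key 101 (by norm_num) (by norm_num) (by norm_num) (by omega)
  · exact key 107 (by norm_num) (by norm_num) (by norm_num) (by omega)
  · exact key 191 (by norm_num) (by norm_num) (by norm_num) (by omega)
  · exact key 227 (by norm_num) (by norm_num) (by norm_num) (by omega)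
  · exact key 311 (by norm_num) (by norm_num) (by norm_num) (by omega)
  · exact key 347 (by norm_num) (by norm_num) (by norm_num) (by omega)
  · exact key 461 (by norm_num) (by norm_num) (by norm_num) (by omega)

lemma T30_nodup : T30.Nodup := by unfold T30; decide

lemma T30_prime : ∀ q ∈ T30, q.Prime := by
  intro q hq
  obtain ⟨q', hq', h⟩ := triplet_prime (T30_mem q hq)
  have : q = q' := by exact_mod_cast h
  rw [this]; exact hq'

lemma exists_triplet_28 : ∃ N, IsFactorial TripletPrimes 28 N := by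
  have hlen : T30.length = 30 := rfl
  refine exists_factorial (n := 28) (fun i => ((T30.get (Fin.cast hlen.symm ⟨i, by omega⟩) : ℕ) : ℤ))
    (fun i => T30_mem _ (List.get_mem _ _)) ?_
  intro i j hij
  have h1 : T30.get (Fin.cast hlen.symm ⟨i, by omega⟩) = T30.get (Fin.cast hlen.symm ⟨j, by omega⟩) :=
    Int.ofNat_inj.1 hij
  have h2 := (List.nodup_iff_injective_get.1 T30_nodup) h1
  have h3 := congrArg Fin.val h2
  exact Fin.ext (by simpa using h3)

lemma exists_all (n : ℕ) : ∃ M, IsFactorial AllPrimes n M := by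
  refine exists_factorial (n := n) (fun i => ((Nat.nth Nat.Prime i : ℕ) : ℤ))
    (fun i => ⟨_, Nat.prime_nth_prime i, rfl⟩) ?_
  intro i j hij
  have h1 : Nat.nth Nat.Prime i = Nat.nth Nat.Prime j := Int.ofNat_inj.1 hij
  exact Fin.ext (Nat.nth_injective Nat.infinite_setOfPred_prime h1)

/-- **Q1 is false.** The factorials `28!_{P_3}` and `28!_P` are defined, and (for any choice of the
`p`-orderings) `28!_{P_3}` is divisible by `29` and `28!_P` is not, so that their ratio is different from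
`3! w_2(28) w_3(28) = 24`. More generally, for every prime `p ≥ 5` which is not a member of a
prime triplet `(q, q + 2, q + 6)`, the identity fails for `n = p - 1` whenever the factorial
`n!_{P_3}` is defined: `p` divides `n!_{P_3}` and not `n!_P`, but `p` does not divide the proposed
ratio. -/
theorem result :
    (∃ N M : ℕ, IsFactorial TripletPrimes 28 N ∧ IsFactorial AllPrimes 28 M) ∧
    proposedRatio 28 = 24 ∧
    (∀ N M : ℕ, IsFactorial TripletPrimes 28 N → IsFactorial AllPrimes 28 M →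
      29 ∣ N ∧ ¬ 29 ∣ M ∧ N ≠ M * proposedRatio 28) ∧
    (∀ p : ℕ, p.Prime → 5 ≤ p → (p : ℤ) ∉ TripletPrimes → ∀ N M : ℕ,
      IsFactorial TripletPrimes (p - 1) N → IsFactorial AllPrimes (p - 1) M →
      p ∣ N ∧ ¬ p ∣ M ∧ N ≠ M * proposedRatio (p - 1)) := by
  refine ⟨?_, ?_, fun N M hN hM => ?_, fun p hp h5 hn N M hN hM => main hp h5 hn hN hM⟩
  · obtain ⟨N, hN⟩ := exists_triplet_28
    obtain ⟨M, hM⟩ := exists_all 28
    exact ⟨N, M, hN, hM⟩
  · unfold proposedRatio
    rw [if_pos (by decide)]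
    have h2 : padicValNat 2 28 = 2 := by
      rw [show (28 : ℕ) = 2 ^ 2 * 7 by norm_num, padicValNat.mul (by norm_num) (by norm_num),
        padicValNat.prime_pow, padicValNat.eq_zero_of_not_dvd (by norm_num : ¬ 2 ∣ 7)]
    have h3 : padicValNat 3 28 = 0 := padicValNat.eq_zero_of_not_dvd (by norm_num)
    rw [h2, h3]
    rfl
  · exact main (p := 29) (by norm_num) (by norm_num) not_mem_29 hN hM

end Pool.Agent.Results.MP_1b3ee4_nt.PrimeTriplets
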